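import Pool.Agent.Helper48.LK.Defs

/-!
# Large `k`, T1: sets of about `2kD` vertices have small average inner degree
-/

set_option autoImplicit false
set_option linter.unusedSectionVars false

namespace Pool.Agent.Helper57.LK

open Pool.Agent.Helper32.Sq

/-- Double counting of pairs with a common index. -/
lemma double_count {V ι : Type} (W : Finset V) (I : Finset ι) (R : V → ι → Prop)
    [∀ x i, Decidable (R x i)] :
    ∑ x ∈ W, ∑ y ∈ W, ((I.filter fun i => R x i ∧ R y i).card : ℝ) =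
      ∑ i ∈ I, ((W.filter fun x => R x i).card : ℝ) ^ 2 := by
  classical
  have h1 : ∀ x y, ((I.filter fun i => R x i ∧ R y i).card : ℝ) =
      ∑ i ∈ I, (if R x i then (1 : ℝ) else 0) * (if R y i then (1 : ℝ) else 0) := by
    intro x y
    rw [Finset.card_filter]
    push_cast
    apply Finset.sum_congr rfl
    intro i _
    by_cases h : R x i <;> by_cases h' : R y i <;> simp [h, h']
  have h2 : ∀ i, ((W.filter fun x => R x i).card : ℝ) =
      ∑ x ∈ W, (if R x i then (1 : ℝ) else 0) := by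
    intro i
    rw [Finset.card_filter]
    push_cast
    rfl
  simp only [h1, h2]
  rw [show (∑ i ∈ I, (∑ x ∈ W, (if R x i then (1 : ℝ) else 0)) ^ 2) =
      ∑ i ∈ I, ∑ x ∈ W, ∑ y ∈ W,
        (if R x i then (1 : ℝ) else 0) * (if R y i then (1 : ℝ) else 0) from
    Finset.sum_congr rfl fun i _ => by rw [sq, Finset.sum_mul_sum]]
  rw [Finset.sum_comm]
  conv_rhs => rw [Finset.sum_comm]
  rw [Finset.sum_comm]
  apply Finset.sum_congr rfl
  intro x _
  rw [Finset.sum_comm]

lemma single_count {V ι : Type} (W : Finset V) (I : Finset ι) (R : V → ι → Prop)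
    [∀ x i, Decidable (R x i)] :
    ∑ x ∈ W, ((I.filter fun i => R x i).card : ℝ) =
      ∑ i ∈ I, ((W.filter fun x => R x i).card : ℝ) := by
  have h1 : ∀ x, ((I.filter fun i => R x i).card : ℝ) =
      ∑ i ∈ I, (if R x i then (1 : ℝ) else 0) := by
    intro x
    rw [Finset.card_filter]
    push_cast
    rfl
  have h2 : ∀ i, ((W.filter fun x => R x i).card : ℝ) =
      ∑ x ∈ W, (if R x i then (1 : ℝ) else 0) := by
    intro i
    rw [Finset.card_filter]
    push_cast
    rfl
  simp only [h1, h2]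
  exact Finset.sum_comm

/-- The pointwise bound of the indicator of a common hub. -/
lemma one_le_sub {k t : ℝ} (h1 : 1 ≤ t) (hk : t ≤ k) : 1 ≤ t - (t ^ 2 - t) / k := by
  have hk0 : 0 < k := by linarith
  have : (t ^ 2 - t) / k ≤ t - 1 := by
    rw [div_le_iff₀ hk0]
    nlinarith
  linarith

/-- The numerical part. -/
lemma numeric {η C k D w S2 S1 Q B S T : ℝ} (hη : 0 < η) (hη1 : η ≤ 1) (hC : 0 ≤ C)
    (hk : C + 8 * (8 / η + 1) ≤ η * k) (hD : 0 < D) (hw : 0 < w)
    (hwk : w ≤ (2 * k + C) * D) (hS1 : S1 ≤ k * w) (hS2 : S2 ≤ D * S1)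
    (hQ : 0 ≤ Q) (hB0 : 0 ≤ B) (hS : 0 ≤ S)
    (hSS : (η / 16) * D * (S1 - S) ≤ D * S1 - S2)
    (hBS : B * ((1 - η / 16) * D) ≤ S) (hSS1 : S ≤ S1)
    (hT : S ^ 2 / w - S ≤ T) (hTQ : T ^ 2 ≤ B ^ 2 * Q) :
    S2 - Q / k ≤ (k - 1 / 2 + η) * D * w := by
  have hηk : 0 < η * k := by
    have : 0 < 8 / η := by positivity
    linarith
  have hk0 : 0 < k := (pos_iff_pos_of_mul_pos hηk).1 hη
  have hQk : 0 ≤ Q / k := by positivity
  by_cases hdef : D * w / 2 ≤ k * D * w - S2
  · have : 0 ≤ η * D * w := by positivity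
    linarith
  push Not at hdef
  have hηk1 : η * k ≤ k := by
    have := mul_le_mul_of_nonneg_right hη1 hk0.le
    rwa [one_mul] at this
  have hk1 : 8 / η + 1 ≤ k / 8 := by
    linarith
  -- lower bound for `S`
  have hSlow : (k - 8 / η) * w ≤ S := by
    have h1 : D * (k * w - S1) * (η / 16) ≤ D * (k * w - S1) := by
      have : 0 ≤ D * (k * w - S1) := mul_nonneg hD.le (by linarith)
      exact mul_le_of_le_one_right this (by linarith)
    have h2 : (η / 16) * D * (k * w - S) ≤ D * w / 2 := by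
      have : (η / 16) * D * (k * w - S) =
          D * (k * w - S1) * (η / 16) + (η / 16) * D * (S1 - S) := by ring
      rw [this]
      have h3 : D * (k * w - S1) + (D * S1 - S2) = k * D * w - S2 := by ring
      linarith
    have h3 : k * w - S ≤ 8 / η * w := by
      have h4 : (η / 16 * D) * (k * w - S) ≤ (η / 16 * D) * (8 / η * w) := by
        have : (η / 16 * D) * (8 / η * w) = D * w / 2 := by field_simp; ring
        rw [this]; linarith
      exact le_of_mul_le_mul_left h4 (by positivity)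
    linarith
  set k1 : ℝ := 8 / η with hk1def
  have hk1pos : 0 < k1 := by positivity
  set m : ℝ := (k - k1) * (k - k1 - 1) with hm
  have hkk : 1 ≤ k - k1 - 1 := by linarith
  -- `T ≥ w m`
  have hTm : w * m ≤ T := by
    refine le_trans ?_ hT
    have h1 : S ^ 2 / w - S = S * (S - w) / w := by field_simp
    rw [h1, le_div_iff₀ hw, hm]
    have h2 : (k - k1 - 1) * w ≤ S - w := by linarith
    have h3 : 0 ≤ (k - k1 - 1) * w := by positivity
    calc w * ((k - k1) * (k - k1 - 1)) * w = ((k - k1) * w) * ((k - k1 - 1) * w) := by ring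
      _ ≤ S * (S - w) := mul_le_mul hSlow h2 h3 hS
  have hm1 : (k - k1 - 1) ^ 2 ≤ m := by
    have : m = (k - k1 - 1) ^ 2 + (k - k1 - 1) := by rw [hm]; ring
    linarith
  have hm0 : 0 < m := by
    have : 1 ≤ (k - k1 - 1) ^ 2 := one_le_pow₀ hkk
    linarith
  -- `B` is small
  have hθ : 0 < 1 - η / 16 := by linarith
  have hBk : B * ((1 - η / 16) * D) ≤ k * w := by linarith
  -- lower bound for `Q`
  have hQ1 : (w * m) ^ 2 * ((1 - η / 16) * D) ^ 2 ≤ (k * w) ^ 2 * Q := by
    have h1 : (w * m) ^ 2 ≤ B ^ 2 * Q :=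
      (pow_le_pow_left₀ (by positivity) hTm 2).trans hTQ
    have h2 : (B * ((1 - η / 16) * D)) ^ 2 ≤ (k * w) ^ 2 :=
      pow_le_pow_left₀ (by positivity) hBk 2
    calc (w * m) ^ 2 * ((1 - η / 16) * D) ^ 2 ≤ B ^ 2 * Q * ((1 - η / 16) * D) ^ 2 :=
          mul_le_mul_of_nonneg_right h1 (by positivity)
      _ = (B * ((1 - η / 16) * D)) ^ 2 * Q := by ring
      _ ≤ (k * w) ^ 2 * Q := mul_le_mul_of_nonneg_right h2 hQ
  have hQ2 : m ^ 2 * ((1 - η / 16) * D) ^ 2 ≤ k ^ 2 * Q := by
    have h1 : w ^ 2 * (m ^ 2 * ((1 - η / 16) * D) ^ 2) ≤ w ^ 2 * (k ^ 2 * Q) := by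
      calc w ^ 2 * (m ^ 2 * ((1 - η / 16) * D) ^ 2) = (w * m) ^ 2 * ((1 - η / 16) * D) ^ 2 := by
            ring
        _ ≤ (k * w) ^ 2 * Q := hQ1
        _ = w ^ 2 * (k ^ 2 * Q) := by ring
    exact le_of_mul_le_mul_left h1 (by positivity)
  have hm2 : k ^ 4 * (1 - 4 * ((k1 + 1) / k)) ≤ m ^ 2 := by
    have h1 : ((k - k1 - 1) ^ 2) ^ 2 ≤ m ^ 2 := pow_le_pow_left₀ (by positivity) hm1 2
    refine le_trans ?_ h1
    have h2 : ((k - k1 - 1) ^ 2) ^ 2 = k ^ 4 * (1 + -((k1 + 1) / k)) ^ 4 := by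
      have : k - k1 - 1 = k * (1 + -((k1 + 1) / k)) := by field_simp; ring
      rw [this]; ring
    rw [h2]
    have h3 : -2 ≤ -((k1 + 1) / k) := by
      have : (k1 + 1) / k ≤ 1 := by rw [div_le_one hk0]; linarith
      linarith
    have h4 := one_add_mul_le_pow h3 4
    have h5 : (1 : ℝ) - 4 * ((k1 + 1) / k) ≤ (1 + -((k1 + 1) / k)) ^ 4 := by
      push_cast at h4
      linarith
    exact mul_le_mul_of_nonneg_left h5 (by positivity)
  have hθ2 : (1 - η / 8) ≤ (1 - η / 16) ^ 2 := by
    have : (1 - η / 16) ^ 2 = 1 - η / 8 + η ^ 2 / 256 := by ring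
    rw [this]
    linarith [sq_nonneg η]
  set z : ℝ := (k1 + 1) / k with hz
  have hzk : k * z = k1 + 1 := by rw [hz]; field_simp
  have hz0 : 0 ≤ z := by positivity
  have hz1 : 4 * z ≤ 1 := by
    have : z ≤ 1 / 8 := by rw [hz, div_le_iff₀ hk0]; linarith
    linarith
  have hQ3 : k * D ^ 2 * (1 - η / 8 - 4 * z) ≤ Q / k := by
    rw [le_div_iff₀ hk0]
    have h1 : k ^ 2 * (k * D ^ 2 * (1 - η / 8 - 4 * z) * k) ≤ k ^ 2 * Q := by
      refine le_trans ?_ hQ2
      have h2 : k ^ 2 * (k * D ^ 2 * (1 - η / 8 - 4 * z) * k) =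
          (k ^ 4 * D ^ 2) * (1 - η / 8 - 4 * z) := by ring
      rw [h2]
      have h3 : 1 - η / 8 - 4 * z ≤ (1 - 4 * z) * (1 - η / 8) := by
        have h4 : (1 - 4 * z) * (1 - η / 8) = 1 - η / 8 - 4 * z + z * η / 2 := by ring
        rw [h4]
        linarith [mul_nonneg hz0 hη.le]
      calc (k ^ 4 * D ^ 2) * (1 - η / 8 - 4 * z) ≤ (k ^ 4 * D ^ 2) * ((1 - 4 * z) * (1 - η / 8)) :=
            mul_le_mul_of_nonneg_left h3 (by positivity)
        _ = (k ^ 4 * (1 - 4 * z)) * ((1 - η / 8) * D ^ 2) := by ring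
        _ ≤ m ^ 2 * ((1 - η / 16) ^ 2 * D ^ 2) := by
            refine mul_le_mul hm2 (mul_le_mul_of_nonneg_right hθ2 (by positivity)) ?_
              (by positivity)
            have : 0 ≤ 1 - η / 8 := by linarith
            positivity
        _ = m ^ 2 * ((1 - η / 16) * D) ^ 2 := by ring
    exact le_of_mul_le_mul_left h1 (by positivity)
  have hfin : (1 / 2 - η) * w ≤ D * (k * (1 - η / 8) - 4 * (k1 + 1)) := by
    have h0 : 0 ≤ k * (1 - η / 8) - 4 * (k1 + 1) := by
      have : k * (1 - η / 8) = k - (η * k) / 8 := by ring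
      rw [this]
      linarith
    rcases le_or_gt (1 / 2) η with hh | hh
    · have : (1 / 2 - η) * w ≤ 0 :=
        mul_nonpos_of_nonpos_of_nonneg (by linarith) hw.le
      exact this.trans (mul_nonneg hD.le h0)
    · have h1 : (1 / 2 - η) * w ≤ (1 / 2 - η) * ((2 * k + C) * D) :=
        mul_le_mul_of_nonneg_left hwk (by linarith)
      refine h1.trans ?_
      have h2 : (1 / 2 - η) * ((2 * k + C) * D) = D * ((1 / 2 - η) * (2 * k + C)) := by ring
      rw [h2]
      refine mul_le_mul_of_nonneg_left ?_ hD.le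
      have h3 : 0 ≤ η * C := by positivity
      have h4 : (1 / 2 - η) * (2 * k + C) = k + C / 2 - 2 * (η * k) - η * C := by ring
      have h5 : k * (1 - η / 8) = k - (η * k) / 8 := by ring
      rw [h4, h5]
      linarith
  have h6 : S2 ≤ k * D * w := by
    have := mul_le_mul_of_nonneg_left hS1 hD.le
    linarith
  have h7 : k * D ^ 2 * (1 - η / 8 - 4 * z) = D * (D * (k * (1 - η / 8) - 4 * (k1 + 1))) := by
    rw [← hzk]; ring
  have h8 : D * ((1 / 2 - η) * w) ≤ Q / k :=
    (mul_le_mul_of_nonneg_left hfin hD.le).trans (h7 ▸ hQ3)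
  linarith

theorem rlstar (η C : ℝ) (hη : 0 < η) (hη1 : η ≤ 1) (hC : 0 ≤ C) :
    ∃ k0 : ℕ, ∀ k : ℕ, k0 ≤ k → ∃ D0 : ℕ, ∀ D : ℕ, D0 ≤ D →
      ∀ (V : Type) [Fintype V] [DecidableEq V] (W : Finset V) (out : V → Finset V)
        (H : SimpleGraph V) [DecidableRel H.Adj] (F : V → V → Prop) [DecidableRel F],
        (∀ x ∈ W, (out x).card ≤ k) →
        (∀ h, (W.filter fun u => h ∈ out u).card ≤ D) →
        (∀ x ∈ W, (W.filter fun y => F x y).card ≤ (k - 1) * D) →
        (∀ x ∈ W, ∀ y ∈ W, H.Adj x y → (∃ h ∈ out x, h ∈ out y) ∨ F x y) →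
        ((W.card : ℝ) ≤ (2 * k + C) * D) →
        ∑ x ∈ W, (dg H W x : ℝ) ≤ (2 * k - 3 / 2 + η) * D * W.card := by
  refine ⟨⌈(C + 8 * (8 / η + 1)) / η⌉₊, fun k hk => ⟨1, fun D hD => ?_⟩⟩
  intro V _ _ W out H _ F _ hout hin hF hadj hcard
  have hkη : C + 8 * (8 / η + 1) ≤ η * k := by
    have h1 : (C + 8 * (8 / η + 1)) / η ≤ k := (Nat.le_ceil _).trans (by exact_mod_cast hk)
    rw [div_le_iff₀ hη] at h1
    linarith
  have h8 : 0 < 8 / η := by positivity
  have hk0 : (0 : ℝ) < k := by
    have : 0 < η * k := by linarith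
    exact (pos_iff_pos_of_mul_pos this).1 hη
  have hk1 : 1 ≤ k := by exact_mod_cast hk0
  have hD0 : (0 : ℝ) < D := by exact_mod_cast hD
  rcases W.eq_empty_or_nonempty with hW | hW
  · subst hW; simp
  have hw : (0 : ℝ) < W.card := by exact_mod_cast hW.card_pos
  set θ : ℝ := η / 16 with hθ
  set K : V → ℝ := fun h => ((W.filter fun u => h ∈ out u).card : ℝ) with hK
  have hKD : ∀ h, K h ≤ D := fun h => Nat.cast_le.2 (hin h)
  have hK0 : ∀ h, 0 ≤ K h := fun h => Nat.cast_nonneg _
  set Big : Finset V := Finset.univ.filter fun h => (1 - θ) * D ≤ K h with hBig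
  set t : V → V → ℝ := fun x y => ((out x ∩ out y).card : ℝ) with ht
  have htk : ∀ x ∈ W, ∀ y, t x y ≤ k := fun x hx y => by
    have : (out x ∩ out y).card ≤ k :=
      (Finset.card_le_card Finset.inter_subset_left).trans (hout x hx)
    exact Nat.cast_le.2 this
  set S2 : ℝ := ∑ h, K h ^ 2 with hS2
  set S1 : ℝ := ∑ h, K h with hS1
  set S : ℝ := ∑ h ∈ Big, K h with hS
  set Q : ℝ := ∑ p ∈ Big.offDiag, ((W.filter fun x => p.1 ∈ out x ∧ p.2 ∈ out x).card : ℝ) ^ 2
    with hQ
  set T : ℝ := ∑ p ∈ Big.offDiag, ((W.filter fun x => p.1 ∈ out x ∧ p.2 ∈ out x).card : ℝ)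
    with hT
  -- the pairs with a common hub
  have hP : ∑ x ∈ W, ((W.filter fun y => ∃ h ∈ out x, h ∈ out y).card : ℝ) ≤ S2 - Q / k := by
    have h1 : ∀ x ∈ W, ((W.filter fun y => ∃ h ∈ out x, h ∈ out y).card : ℝ) ≤
        ∑ y ∈ W, (t x y - (t x y ^ 2 - t x y) / k) := by
      intro x hx
      rw [Finset.card_filter]
      push_cast
      apply Finset.sum_le_sum
      intro y _
      split_ifs with hh
      · obtain ⟨h, h1, h2⟩ := hh
        apply one_le_sub _ (htk x hx y)
        have : 1 ≤ (out x ∩ out y).card :=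
          Finset.card_pos.2 ⟨h, Finset.mem_inter.2 ⟨h1, h2⟩⟩
        exact Nat.one_le_cast.2 this
      · have h2 : (out x ∩ out y).card = 0 := by
          rw [Finset.card_eq_zero, Finset.eq_empty_iff_forall_notMem]
          intro h hh'
          rw [Finset.mem_inter] at hh'
          exact hh ⟨h, hh'.1, hh'.2⟩
        have h3 : t x y = 0 := by simp only [ht, h2, Nat.cast_zero]
        rw [h3]; simp
    refine (Finset.sum_le_sum h1).trans ?_
    have h2 : ∑ x ∈ W, ∑ y ∈ W, t x y = S2 := by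
      have := double_count W (Finset.univ : Finset V) (fun x h => h ∈ out x)
      rw [hS2, ← this]
      apply Finset.sum_congr rfl
      intro x _
      apply Finset.sum_congr rfl
      intro y _
      simp only [ht]
      congr 2
      ext h
      simp
    have h3 : Q ≤ ∑ x ∈ W, ∑ y ∈ W, (t x y ^ 2 - t x y) := by
      have := double_count W Big.offDiag (fun x (p : V × V) => p.1 ∈ out x ∧ p.2 ∈ out x)
      rw [hQ, ← this]
      apply Finset.sum_le_sum
      intro x _
      apply Finset.sum_le_sum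
      intro y _
      have h4 : (Big.offDiag.filter fun p : V × V => (p.1 ∈ out x ∧ p.2 ∈ out x) ∧
          (p.1 ∈ out y ∧ p.2 ∈ out y)) ⊆ (out x ∩ out y).offDiag := by
        intro p hp
        rw [Finset.mem_filter, Finset.mem_offDiag] at hp
        rw [Finset.mem_offDiag, Finset.mem_inter, Finset.mem_inter]
        exact ⟨⟨hp.2.1.1, hp.2.2.1⟩, ⟨hp.2.1.2, hp.2.2.2⟩, hp.1.2.2⟩
      have h5 := Finset.card_le_card h4
      have h6 : (((out x ∩ out y).offDiag.card : ℕ) : ℝ) = t x y ^ 2 - t x y := by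
        rw [Finset.offDiag_card, Nat.cast_sub (Nat.le_mul_self _)]
        push_cast
        simp only [ht]
        ring
      rw [← h6]
      exact_mod_cast h5
    have h4 : ∑ x ∈ W, ∑ y ∈ W, (t x y - (t x y ^ 2 - t x y) / k) =
        S2 - (∑ x ∈ W, ∑ y ∈ W, (t x y ^ 2 - t x y)) / k := by
      rw [← h2]
      simp only [Finset.sum_sub_distrib, ← Finset.sum_div]
    rw [h4]
    have h5 : Q / k ≤ (∑ x ∈ W, ∑ y ∈ W, (t x y ^ 2 - t x y)) / k :=
      div_le_div_of_nonneg_right h3 hk0.le
    linarith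
  -- the numerical lemma
  have hnum : S2 - Q / k ≤ ((k : ℝ) - 1 / 2 + η) * D * W.card := by
    have hS1' : ∑ x ∈ W, (((Finset.univ : Finset V).filter fun h => h ∈ out x).card : ℝ) = S1 :=
      single_count W (Finset.univ : Finset V) (fun x h => h ∈ out x)
    refine numeric (η := η) (C := C) (S1 := S1) (B := Big.card) (S := S) (T := T) hη hη1 hC hkη
      hD0 hw hcard ?_ ?_ ?_ ?_ ?_ ?_ ?_ ?_ ?_ ?_
    · rw [← hS1']
      calc ∑ x ∈ W, (((Finset.univ : Finset V).filter fun h => h ∈ out x).card : ℝ)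
          ≤ ∑ x ∈ W, (k : ℝ) := by
            apply Finset.sum_le_sum
            intro x hx
            have h1 : ((Finset.univ : Finset V).filter fun h => h ∈ out x) = out x := by
              ext h; simp
            rw [h1]
            exact_mod_cast hout x hx
        _ = k * W.card := by rw [Finset.sum_const, nsmul_eq_mul, mul_comm]
    · rw [hS2, hS1, Finset.mul_sum]
      apply Finset.sum_le_sum
      intro h _
      rw [sq]
      exact mul_le_mul_of_nonneg_right (hKD h) (hK0 h)
    · exact Finset.sum_nonneg fun p _ => sq_nonneg _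
    · exact Nat.cast_nonneg _
    · exact Finset.sum_nonneg fun h _ => hK0 h
    · -- the small hubs
      have h1 : S1 - S = ∑ h ∈ Finset.univ.filter (fun h => ¬ (1 - θ) * D ≤ K h), K h := by
        rw [hS1, hS, hBig, ← Finset.sum_filter_add_sum_filter_not Finset.univ
          (fun h => (1 - θ) * D ≤ K h) K]
        ring
      have h2 : D * S1 - S2 = ∑ h, K h * (D - K h) := by
        rw [hS1, hS2, Finset.mul_sum, ← Finset.sum_sub_distrib]
        apply Finset.sum_congr rfl
        intro h _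
        ring
      rw [h1, h2, Finset.mul_sum]
      calc ∑ h ∈ Finset.univ.filter (fun h => ¬ (1 - θ) * D ≤ K h), η / 16 * D * K h
          ≤ ∑ h ∈ Finset.univ.filter (fun h => ¬ (1 - θ) * D ≤ K h), K h * (D - K h) := by
            apply Finset.sum_le_sum
            intro h hh
            rw [Finset.mem_filter, not_le] at hh
            have h3 : η / 16 * D ≤ D - K h := by
              have := hh.2
              rw [hθ] at this
              linarith
            calc η / 16 * D * K h ≤ (D - K h) * K h := mul_le_mul_of_nonneg_right h3 (hK0 h)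
              _ = K h * (D - K h) := mul_comm _ _
        _ ≤ ∑ h, K h * (D - K h) := by
            apply Finset.sum_le_sum_of_subset_of_nonneg (Finset.filter_subset _ _)
            intro h _ _
            exact mul_nonneg (hK0 h) (by linarith [hKD h])
    · rw [hS, ← nsmul_eq_mul, ← Finset.sum_const]
      apply Finset.sum_le_sum
      intro h hh
      rw [hBig, Finset.mem_filter] at hh
      exact hh.2
    · rw [hS, hS1]
      exact Finset.sum_le_sum_of_subset_of_nonneg (Finset.subset_univ _) fun h _ _ => hK0 h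
    · -- convexity
      set t' : V → ℝ := fun x => ((Big.filter fun h => h ∈ out x).card : ℝ) with ht'
      have h1 : ∑ x ∈ W, t' x = S := single_count W Big (fun x h => h ∈ out x)
      have h2 : ∑ x ∈ W, (t' x ^ 2 - t' x) = T := by
        have := single_count W Big.offDiag (fun x (p : V × V) => p.1 ∈ out x ∧ p.2 ∈ out x)
        rw [hT, ← this]
        apply Finset.sum_congr rfl
        intro x _
        have h4 : (Big.offDiag.filter fun p : V × V => p.1 ∈ out x ∧ p.2 ∈ out x) =
            (Big.filter fun h => h ∈ out x).offDiag := by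
          ext p
          simp only [Finset.mem_filter, Finset.mem_offDiag]
          tauto
        rw [h4, Finset.offDiag_card, Nat.cast_sub (Nat.le_mul_self _)]
        push_cast
        simp only [ht']
        ring
      rw [← h2, Finset.sum_sub_distrib, h1]
      have h3 : S ^ 2 / W.card ≤ ∑ x ∈ W, t' x ^ 2 := by
        rw [div_le_iff₀ hw, ← h1]
        have := sq_sum_le_card_mul_sum_sq (s := W) (f := t')
        linarith
      linarith
    · have h1 := sq_sum_le_card_mul_sum_sq (s := Big.offDiag)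
        (f := fun p => ((W.filter fun x => p.1 ∈ out x ∧ p.2 ∈ out x).card : ℝ))
      refine h1.trans ?_
      have h2 : ((Big.offDiag.card : ℕ) : ℝ) ≤ (Big.card : ℝ) ^ 2 := by
        rw [Finset.offDiag_card, sq]
        exact_mod_cast Nat.sub_le _ _
      exact mul_le_mul_of_nonneg_right h2 (Finset.sum_nonneg fun p _ => sq_nonneg _)
  -- conclusion
  have hdeg : ∀ x ∈ W, (dg H W x : ℝ) ≤
      ((W.filter fun y => ∃ h ∈ out x, h ∈ out y).card : ℝ) + ((k : ℝ) - 1) * D := by
    intro x hx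
    have h1 : (W.filter fun u => H.Adj x u) ⊆
        (W.filter fun y => ∃ h ∈ out x, h ∈ out y) ∪ (W.filter fun y => F x y) := by
      intro y hy
      rw [Finset.mem_filter] at hy
      rw [Finset.mem_union, Finset.mem_filter, Finset.mem_filter]
      rcases hadj x hx y hy.1 hy.2 with h | h
      · exact Or.inl ⟨hy.1, h⟩
      · exact Or.inr ⟨hy.1, h⟩
    have h2 : dg H W x ≤ (W.filter fun y => ∃ h ∈ out x, h ∈ out y).card + (k - 1) * D :=
      (Finset.card_le_card h1).trans ((Finset.card_union_le _ _).trans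
        (Nat.add_le_add_left (hF x hx) _))
    have h3 : (dg H W x : ℝ) ≤
        (((W.filter fun y => ∃ h ∈ out x, h ∈ out y).card + (k - 1) * D : ℕ) : ℝ) := by
      exact_mod_cast h2
    rw [Nat.cast_add, Nat.cast_mul, Nat.cast_sub hk1, Nat.cast_one] at h3
    exact h3
  calc ∑ x ∈ W, (dg H W x : ℝ)
      ≤ ∑ x ∈ W, (((W.filter fun y => ∃ h ∈ out x, h ∈ out y).card : ℝ) +
          ((k : ℝ) - 1) * D) := Finset.sum_le_sum hdeg
    _ = ∑ x ∈ W, ((W.filter fun y => ∃ h ∈ out x, h ∈ out y).card : ℝ) +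
          W.card * (((k : ℝ) - 1) * D) := by
        rw [Finset.sum_add_distrib, Finset.sum_const, nsmul_eq_mul]
    _ ≤ ((k : ℝ) - 1 / 2 + η) * D * W.card + W.card * (((k : ℝ) - 1) * D) := by
        have := hP.trans hnum
        linarith
    _ = (2 * k - 3 / 2 + η) * D * W.card := by ring

end Pool.Agent.Helper57.LK
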